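import Pool.Agent.Lib.MP_4fbe7c_an.WH.Iface

/-!
Project RS (MP_4fbe7c_an): rates separated from the smallest one.  `m > 0` of class `C^1`: there
are `κ, D > 0` such that for every number of species and all rates with
`∑_{j ≠ i₀, d_j < D} d_{i₀} / d_j ≤ κ` species `i₀` wins (no lower bound for `d_{i₀}`).
Definitions and the statements of all modules.
Proofs on paper: `Pool/Agent/Lib/MP_4fbe7c_an/RS/Paper.md`.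
-/

set_option autoImplicit false

open Set

namespace Pool.Agent.Lib.MP_4fbe7c_an.RS

open Pool.Agent.Lib.MP_4fbe7c_an.SD Pool.Agent.Lib.MP_4fbe7c_an.FC
  Pool.Agent.Lib.MP_4fbe7c_an.WH

section defs

variable (L : ℝ) (θ θ' : ℝ → ℝ) {N : ℕ} (d : Fin N → ℝ) (u v : Fin N → ℝ → ℝ → ℝ)

/-- Mass of species `k`. -/
noncomputable def mu (k : Fin N) (t : ℝ) : ℝ := ∫ x in (0)..L, u k t x

/-- The functional `∫ (u₀ - θ - θ log (u₀ / θ) + ∑_{k ≠ i₀} u_k)`. -/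
noncomputable def Vr (i₀ : Fin N) (t : ℝ) : ℝ :=
  ∫ x in (0)..L, (u i₀ t x - θ x - θ x * Real.log (u i₀ t x / θ x) +
    ∑ k ∈ Finset.univ.erase i₀, u k t x)

/-- `∫ (U - θ) ^ 2`. -/
noncomputable def Xq (t : ℝ) : ℝ := ∫ x in (0)..L, ((∑ k, u k t x) - θ x) ^ 2

/-- `∫ (∂_x log (u₀ / θ)) ^ 2`. -/
noncomputable def Rq (i₀ : Fin N) (t : ℝ) : ℝ :=
  ∫ x in (0)..L, (v i₀ t x / u i₀ t x - θ' x / θ x) ^ 2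

end defs

/-- RGR: a species with a flat profile loses. -/
def RgrStatement : Prop :=
  ∀ (L Z c₂ : ℝ), 0 < L → 0 < Z → 0 < c₂ → ∃ c₃ C₃ : ℝ, 0 < c₃ ∧ 0 < C₃ ∧
    ∀ f f' ζ : ℝ → ℝ, DerivOn L f f' → ContinuousOn f' (Icc 0 L) → ContinuousOn ζ (Icc 0 L) →
      (∀ x ∈ Icc 0 L, 0 < f x) → (∀ x ∈ Icc 0 L, |ζ x| ≤ Z) → c₂ ≤ ∫ x in (0)..L, ζ x ^ 2 →
      (∫ x in (0)..L, ζ x * f' x) - 1 / 3 * (∫ x in (0)..L, ζ x ^ 2 * f x) ≤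
        (∫ x in (0)..L, f x) * (-c₃ + C₃ * ∫ x in (0)..L, (f' x / f x) ^ 2)

/-- RCO: coercivity. -/
def RcoStatement : Prop :=
  ∀ (L m₀ M : ℝ), 0 < L → 0 < m₀ → 0 < M → ∃ C : ℝ, 0 < C ∧
    ∀ θ θ' f f' W : ℝ → ℝ, DerivOn L θ θ' → ContinuousOn θ' (Icc 0 L) → DerivOn L f f' →
      ContinuousOn f' (Icc 0 L) → ContinuousOn W (Icc 0 L) →
      (∀ x ∈ Icc 0 L, m₀ ≤ θ x ∧ θ x ≤ M) → (∀ x ∈ Icc 0 L, 0 < f x) →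
      (∀ x ∈ Icc 0 L, 0 ≤ W x) → ∀ V : ℝ,
      V = (∫ x in (0)..L, (f x - θ x - θ x * Real.log (f x / θ x) + W x)) →
      0 ≤ V ∧ V / (1 + V) ≤ C * ((∫ x in (0)..L, (f x + W x - θ x) ^ 2) +
        (∫ x in (0)..L, (f' x / f x - θ' x / θ x) ^ 2) + ∫ x in (0)..L, W x)

/-- RZS: bound for `θ'/θ` which does not depend on the rate. -/
def RzsStatement : Prop :=
  ∀ (L m₀ P d : ℝ) (m m' θ θ' θ'' : ℝ → ℝ), 0 < L → 0 < m₀ → 0 < d → DerivOn L m m' →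
    (∀ x ∈ Icc 0 L, |m' x| ≤ P) → Steady L m d θ θ' θ'' → (∀ x ∈ Icc 0 L, m₀ ≤ θ x) →
    ∀ x ∈ Icc 0 L, |θ' x / θ x| ≤ P / m₀

/-- RZL: lower bound for `∫ (θ'/θ) ^ 2`, small rates. -/
def RzlStatement : Prop :=
  ∀ (L M : ℝ) (m m' : ℝ → ℝ), 0 < L → DerivOn L m m' → ContinuousOn m' (Icc 0 L) →
    (∃ x ∈ Icc 0 L, ∃ y ∈ Icc 0 L, m x ≠ m y) → (∀ x ∈ Icc 0 L, |m x| ≤ M) → 0 < M →
    (∀ x ∈ Icc 0 L, 0 < m x) → ∃ c₂ δ₁ : ℝ, 0 < c₂ ∧ 0 < δ₁ ∧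
    ∀ (d : ℝ) (θ θ' θ'' : ℝ → ℝ), 0 < d → d ≤ δ₁ → Steady L m d θ θ' θ'' →
      c₂ ≤ ∫ x in (0)..L, (θ' x / θ x) ^ 2

/-- RDV: derivative of `Vr`. -/
def RdvStatement : Prop :=
  ∀ (L M m₀ Z : ℝ) (m θ θ' θ'' : ℝ → ℝ) (N : ℕ) (d : Fin N → ℝ) (u v w : Fin N → ℝ → ℝ → ℝ)
    (i₀ : Fin N), Ctx L M m d u v w → Steady L m (d i₀) θ θ' θ'' → 0 < m₀ →
    (∀ x ∈ Icc 0 L, m₀ ≤ θ x) → (∀ x ∈ Icc 0 L, |θ' x / θ x| ≤ Z) →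
    20 * d i₀ * Z ^ 2 ≤ 3 * m₀ → Pres L u i₀ → ∀ t, 0 < t → ∃ V' : ℝ,
      HasDerivAt (Vr L θ u i₀) V' t ∧
      V' ≤ -(1 / 2 * Xq L θ u t) - d i₀ * m₀ / 8 * Rq L θ θ' u v i₀ t +
        d i₀ * ∑ k ∈ Finset.univ.erase i₀, ((∫ x in (0)..L, θ' x / θ x * v k t x) -
          1 / 3 * ∫ x in (0)..L, (θ' x / θ x) ^ 2 * u k t x)

/-- RLG: facts on `lg` and `mu` for one species, and a lower bound for `lg` of species `i₀`. -/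
def RlgStatement : Prop :=
  ∀ (L M m₀ : ℝ) (m θ : ℝ → ℝ) (N : ℕ) (d : Fin N → ℝ) (u v w : Fin N → ℝ → ℝ → ℝ),
    Ctx L M m d u v w → 0 < m₀ → ContinuousOn θ (Icc 0 L) → (∀ x ∈ Icc 0 L, m₀ ≤ θ x) →
    ∀ t, 0 < t → ∀ k : Fin N, 0 ≤ mu L u k t ∧
      (Absent L u k → mu L u k t = 0) ∧
      (∑ i ∈ Finset.univ.erase k, mu L u i t ≤ mass L u t) ∧
      (Pres L u k → 0 < mu L u k t ∧ L * gm L u k t ≤ mu L u k t ∧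
        mu L u k t ≤ L * gm L u k t * Real.exp (1 + L * yy L u v k t) ∧
        lg L u k t ≤ L * Real.log (mu L u k t / L) ∧
        ∑ i ∈ Finset.univ.erase k, mu L u i t ≤ Vr L θ u k t ∧
        L * Real.log m₀ - L - Vr L θ u k t / m₀ ≤ lg L u k t)

/-- RLA: the auxiliary functional. -/
def RlaStatement : Prop :=
  ∀ (L M D σ₀ C : ℝ), 0 < L → 0 < M → 0 < D → 0 < σ₀ → 0 < C → ∃ κ δ₁ : ℝ, 0 < κ ∧ 0 < δ₁ ∧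
    ∀ (m : ℝ → ℝ) (N : ℕ) (d : Fin N → ℝ) (u v w : Fin N → ℝ → ℝ → ℝ) (i₀ : Fin N),
      Ctx L M m d u v w → Pres L u i₀ → d i₀ ≤ δ₁ →
      (∑ k ∈ (PS L u).erase i₀, if d k < D then d i₀ / d k else 0) ≤ κ →
      ∃ (σ C' T : ℝ) (Λ Λ' : ℝ → ℝ), 0 ≤ σ ∧ σ ≤ σ₀ ∧ 0 < T ∧ ∀ t, T ≤ t →
        HasDerivAt Λ (Λ' t) t ∧ Λ t ≤ C' - σ * lg L u i₀ t ∧
        ∀ V : ℝ, 0 < V → ∑ k ∈ Finset.univ.erase i₀, mu L u k t ≤ V →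
          C * d i₀ * ((1 + 1 / V) * ∑ k ∈ Finset.univ.erase i₀, mu L u k t * yy L u v k t) ≤
            Λ' t + σ * d i₀ * yy L u v i₀ t

/-- REX: extinction of all species but `i₀`, `d i₀` small. -/
def RexStatement : Prop :=
  ∀ (L M D : ℝ) (m m' : ℝ → ℝ), 0 < L → DerivOn L m m' → ContinuousOn m' (Icc 0 L) →
    (∃ x ∈ Icc 0 L, ∃ y ∈ Icc 0 L, m x ≠ m y) → (∀ x ∈ Icc 0 L, |m x| ≤ M) → 0 < M →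
    (∀ x ∈ Icc 0 L, 0 < m x) → 0 < D → ∃ κ δ₀ : ℝ, 0 < κ ∧ 0 < δ₀ ∧
    ∀ (N : ℕ) (d : Fin N → ℝ) (u v w : Fin N → ℝ → ℝ → ℝ) (i₀ j : Fin N) (θ θ' θ'' : ℝ → ℝ),
      Ctx L M m d u v w → Steady L m (d i₀) θ θ' θ'' → d i₀ ≤ δ₀ → Pres L u i₀ →
      (∑ k ∈ (PS L u).erase i₀, if d k < D then d i₀ / d k else 0) ≤ κ →
      j ≠ i₀ → Pres L u j → Decays L u j

/-- RMN: the theorem. -/
def RmnStatement : Prop :=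
  ∀ (L : ℝ) (m m' : ℝ → ℝ), 0 < L → DerivOn L m m' → ContinuousOn m' (Icc 0 L) →
    (∃ x ∈ Icc 0 L, ∃ y ∈ Icc 0 L, m x ≠ m y) → (∀ x ∈ Icc 0 L, 0 < m x) →
    ∃ κ D : ℝ, 0 < κ ∧ 0 < D ∧
    ∀ (N : ℕ) (d : Fin N → ℝ) (i₀ : Fin N) (θ θ' θ'' : ℝ → ℝ),
      0 < d i₀ → (∀ j, j ≠ i₀ → d i₀ < d j) →
      (∑ j ∈ Finset.univ.erase i₀, if d j < D then d i₀ / d j else 0) ≤ κ →
      Steady L m (d i₀) θ θ' θ'' → Gas L m d i₀ θ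

end Pool.Agent.Lib.MP_4fbe7c_an.RS
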