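import Pool.Agent.Lib.MP_4fbe7c_an.FC.Main
import Pool.Agent.Lib.MP_4fbe7c_an.WH.Main0
import Pool.Agent.Lib.MP_4fbe7c_an.RS.H40.Rzl
import Pool.Agent.Lib.MP_4fbe7c_an.RS.H50.Rdv
import Pool.Agent.Lib.MP_4fbe7c_an.RS.H50.Rla
import Pool.Agent.Lib.MP_4fbe7c_an.RS.H54.Rex
import Pool.Agent.Lib.MP_4fbe7c_an.RS.H54.Rgr
import Pool.Agent.Lib.MP_4fbe7c_an.RS.H9.Rzs
import Pool.Agent.Lib.MP_4fbe7c_an.RS.H9.Rmn
import Pool.Agent.Lib.MP_4fbe7c_an.RS.H95.Rlg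
import Pool.Agent.Lib.MP_4fbe7c_an.RS.H97.Rco

/-!
Project RS (MP_4fbe7c_an): the assembled theorem on rates separated from the smallest one.
-/

set_option autoImplicit false

namespace Pool.Agent.Lib.MP_4fbe7c_an.RS

open Pool.Agent.Lib.MP_4fbe7c_an.SD Pool.Agent.Lib.MP_4fbe7c_an.FC
  Pool.Agent.Lib.MP_4fbe7c_an.WH

theorem rlg_st : RlgStatement := H95.rlg osc_st
theorem rla_st : RlaStatement := H50.rla lgd_st lse_st mass_st ybu_st rlg_st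
theorem rex_st : RexStatement :=
  H54.rex pa_st H50.rdv H54.rgr H97.rco H9.rzs H40.rzl rlg_st rla_st tht_st ybd_st exs_st
theorem rmn_theorem : RmnStatement := H9.rmn rex_st mainA_theorem finc_st

end Pool.Agent.Lib.MP_4fbe7c_an.RS
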